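import Pool.Agent.Lib_a61181.Lower

open scoped ENNReal

open Pool.Agent.LibA61181

namespace Pool.Agent.Results.MP_a61181_an.NoDichotomy

/-- The dichotomy fails already in order one: for every `θ` with `0 < θ ≤ 1` there is a real Banach
space `X` with `θ ≤ wbs_1 (B_X) ≤ 2 θ`. In particular (take `θ = 1 / 2`) there are a real Banach
space and a countable ordinal `ξ` with `wbs_ξ (B_X)` different from `0` and `2`, whatever the
choice `c` of the sequences of ordinals used in the limit step. -/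
theorem result :
    (∃ (X : Type) (_ : NormedAddCommGroup X) (_ : NormedSpace ℝ X) (_ : CompleteSpace X)
      (ξ : Ordinal.{0}), ξ < Ordinal.omega 1 ∧ ∀ c : Ordinal.{0} → ℕ → Ordinal.{0},
        wbs c ξ (Metric.closedBall (0 : X) 1) ≠ 0 ∧ wbs c ξ (Metric.closedBall (0 : X) 1) ≠ 2) ∧
    (∀ θ : ℝ, 0 < θ → θ ≤ 1 →
      ∃ (X : Type) (_ : NormedAddCommGroup X) (_ : NormedSpace ℝ X) (_ : CompleteSpace X),
        ∀ c : Ordinal.{0} → ℕ → Ordinal.{0},
          ENNReal.ofReal θ ≤ wbs c 1 (Metric.closedBall (0 : X) 1) ∧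
          wbs c 1 (Metric.closedBall (0 : X) 1) ≤ ENNReal.ofReal (2 * θ)) := by
  have h2 : ∀ θ : ℝ, 0 < θ → θ ≤ 1 →
      ∃ (X : Type) (_ : NormedAddCommGroup X) (_ : NormedSpace ℝ X) (_ : CompleteSpace X),
        ∀ c : Ordinal.{0} → ℕ → Ordinal.{0},
          ENNReal.ofReal θ ≤ wbs c 1 (Metric.closedBall (0 : X) 1) ∧
          wbs c 1 (Metric.closedBall (0 : X) 1) ≤ ENNReal.ofReal (2 * θ) := by
    intro θ h0 h1
    exact ⟨V θ h0.le h1, inferInstance, inferInstance, inferInstance,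
      fun c => ⟨le_wbs c, wbs_le h0 c⟩⟩
  refine ⟨?_, h2⟩
  obtain ⟨X, i1, i2, i3, hX⟩ := h2 (1 / 2) (by norm_num) (by norm_num)
  refine ⟨X, i1, i2, i3, 1, ?_, fun c => ⟨?_, ?_⟩⟩
  · exact lt_of_lt_of_le (Ordinal.one_lt_omega0) (Ordinal.omega0_le_omega 1)
  · intro h
    have := (hX c).1
    rw [h] at this
    simp at this
  · intro h
    have := (hX c).2
    rw [h] at this
    norm_num at this

end Pool.Agent.Results.MP_a61181_an.NoDichotomy
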